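import Pool.Agent.W516.MTG.Main
import Pool.Agent.W509.MTG.DIR
import Pool.Agent.W326.MTG.IND

/-!
# The graded dimension conjecture for the periods of mixed Tate motives

For a mixed Tate motive over `ℤ`, the spaces of the periods of weight `n` have the dimensions of the
spaces of the motivic periods and their sum is direct if and only if the linear relations with
rational coefficients between the periods are multiplicative and the odd zeta values which occur are
irrational.
-/

set_option autoImplicit false

namespace Pool.Agent.Results.MP_2000e9_nt.GradedDimensions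

open Pool.Agent.W516.MTZ Pool.Agent.W516.MTH Pool.Agent.W516.MTG

theorem result (m X : Type) [Fintype m] [DecidableEq m] [Fintype X] [DecidableEq X]
    (M : Motive m X) (p : (Matrix m m ℂ)ˣ) (hp : p ∈ M.gp)
    (hdeg : ∀ x, Odd (M.deg x) ∧ 3 ≤ M.deg x) (hinj : Function.Injective M.deg)
    (hpi : (p : Matrix m m ℂ) M.t M.t = 2 * Real.pi * Complex.I)
    (hzeta : ∀ x, (p : Matrix m m ℂ) M.o (M.s x) = riemannZeta (M.deg x)) :
    (DimensionConjecture M (p : Matrix m m ℂ) ∧ iSupIndep (periods M (p : Matrix m m ℂ))) ↔
      (∀ A B : Matrix m m ℂ, AllSatisfies (p : Matrix m m ℂ) (p * A) →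
        AllSatisfies (p : Matrix m m ℂ) (p * B) →
          AllSatisfies (p : Matrix m m ℂ) (p * (A * B))) ∧
      ∀ (x : X) (q : ℚ), riemannZeta (M.deg x) ≠ q :=
  main_graded Pool.Agent.W509.MTG.T_DIR Pool.Agent.W326.MTG.T_IND hp hdeg hinj hpi hzeta

end Pool.Agent.Results.MP_2000e9_nt.GradedDimensions
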