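import Pool.Agent.W245.HF.TwoThirds
import Pool.Agent.H337R2.LZ.Z
import Pool.Agent.H447R2.MZ.Dich

set_option autoImplicit false

/-!
# The dimension of the sum of the spaces of multiple zeta values of weight at most `N`

The space spanned over `ℚ` by all multiple zeta values of weight at most `N` has dimension at least
`⌊2N/3⌋ + 1`.
-/

open Polynomial Pool.Agent.W245.HF

namespace Pool.Agent.Results.MP_2000e9_nt.SumDimension

/-- the `ℚ`-span of the multiple zeta values
`ζ(n_1, …, n_r) = ∑_{0 < k_1 < ⋯ < k_r} k_1^(-n_1) ⋯ k_r^(-n_r)` (`n_i ≥ 1`, `n_r ≥ 2`) of weight `N`;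
for `r = 0` the value is `1` and the weight `0` -/
noncomputable def Z (N : ℕ) : Submodule ℚ ℝ :=
  Submodule.span ℚ
    {x : ℝ | ∃ r : ℕ, ∃ n : Fin r → ℕ,
      (∀ i, 1 ≤ n i) ∧ (∀ h : 0 < r, 2 ≤ n ⟨r - 1, Nat.sub_lt h one_pos⟩) ∧ (∑ i, n i) = N ∧
      x = ∑' k : {k : Fin r → ℕ // StrictMono k ∧ ∀ i, 1 ≤ k i},
            ∏ i, (((k.1 i : ℕ) : ℝ) ^ (n i))⁻¹}

open Pool.Agent.H447R2.MZ in
theorem Zs_le (N : ℕ) : Zs N ≤ Z N := by
  unfold Zs Z
  rw [Submodule.span_le]
  rintro x ⟨t, k, h1, h2, h3, rfl⟩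
  refine Submodule.subset_span ⟨t, k ∘ Fin.rev, fun i => h1 _, fun h => ?_, ?_, ?_⟩
  · have := h2 h
    have e : Fin.rev (⟨t - 1, Nat.sub_lt h one_pos⟩ : Fin t) = ⟨0, h⟩ := by
      ext
      simp only [Fin.val_rev]
      omega
    rw [Function.comp_apply, e]
    exact this
  · rw [← h3]
    exact Fintype.sum_equiv Fin.revPerm _ _ fun i => rfl
  · let e : {m : Fin t → ℕ // StrictAnti m ∧ ∀ i, 1 ≤ m i} ≃ {k : Fin t → ℕ // StrictMono k ∧ ∀ i, 1 ≤ k i} :=
      { toFun := fun m => ⟨m.1 ∘ Fin.rev, fun i j hij => m.2.1 (Fin.rev_lt_rev.2 hij), fun i => m.2.2 _⟩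
        invFun := fun m => ⟨m.1 ∘ Fin.rev, fun i j hij => m.2.1 (Fin.rev_lt_rev.2 hij), fun i => m.2.2 _⟩
        left_inv := fun m => by
          apply Subtype.ext
          funext i
          simp
        right_inv := fun m => by
          apply Subtype.ext
          funext i
          simp }
    rw [← e.tsum_eq]
    refine tsum_congr fun m => ?_
    exact Fintype.prod_equiv Fin.revPerm _ _ fun i => by simp [e]

/-- the sum of the spaces of weight at most `N` -/
noncomputable def S (N : ℕ) : Submodule ℚ ℝ := ⨆ n ∈ Finset.range (N + 1), Z n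

open Pool.Agent.H447R2.MZ in
theorem mon_mem (N a b : ℕ) (h : 2 * b + 3 * a ≤ N) : (Real.pi ^ 2) ^ b * z3 ^ a ∈ S N := by
  have h1 : (Real.pi ^ 2) ^ b * z3 ^ a ∈ Zs (2 * b + 3 * a) :=
    mul_mem (2 * b) (3 * a) _ _ (pow_mem 2 _ pi_sq_mem b) (pow_mem 3 _ z3_mem a)
  have h2 := Zs_le _ h1
  have h3 : Z (2 * b + 3 * a) ≤ S N := by
    unfold S
    exact le_iSup₂_of_le (2 * b + 3 * a) (Finset.mem_range.2 (by omega)) le_rfl
  exact h3 h2

theorem pi_sq_tr : Transcendental ℚ (Real.pi ^ 2) :=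
  Pool.Agent.H340R2.LW.transcendental_pi.pow (by norm_num)

open Pool.Agent.H447R2.MZ in
/-- `1, π², ζ(3)` are linearly independent -/
theorem not_linear (a b : ℚ) : z3 ≠ a + b * Real.pi ^ 2 := by
  intro h
  have h1 := Pool.Agent.LZ.Z3_linind
  rw [Fintype.linearIndependent_iff] at h1
  have h2 := h1 ![a, 6 * b, -1] (by
    rw [Fin.sum_univ_three]
    simp only [Matrix.cons_val_zero, Matrix.cons_val_one, Matrix.cons_val, Rat.smul_def]
    rw [Pool.Agent.LZ.Z2_value]
    have e : Pool.Agent.H337R2.zr 3 = z3 := rfl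
    rw [e, h]
    push_cast
    ring) 2
  simp at h2

open Pool.Agent.H447R2.MZ in
theorem result (N : ℕ) :
    ((2 * N / 3 + 1 : ℕ) : Cardinal) ≤ Module.rank ℚ ↥(⨆ n ∈ Finset.range (N + 1), Z n) := by
  change ((2 * N / 3 + 1 : ℕ) : Cardinal) ≤ Module.rank ℚ ↥(S N)
  have hx := pi_sq_tr
  by_cases hrel : ∀ A B : ℚ[X], aeval (Real.pi ^ 2) A * z3 = aeval (Real.pi ^ 2) B → A = 0
  · -- the first case
    refine le_trans ?_ (rank_of_inj (S N) (pm (Real.pi ^ 2) z3 (Real.pi ^ 2))
      (case_one _ _ hx hrel) (N / 2 + 1) ((N - 1) / 2) ?_ ?_)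
    · exact_mod_cast (by omega : 2 * N / 3 + 1 ≤ N / 2 + 1 + (N - 1) / 2)
    · intro b hb
      have h1 := mon_mem N 0 b (by omega)
      rw [pm_apply]
      simpa using h1
    · intro b hb
      have h1 := mon_mem N 1 b (by omega)
      rw [pm_apply]
      simpa [mul_comm] using h1
  · obtain ⟨A, B, hc, hA, h⟩ := rational_case (Real.pi ^ 2) z3 hrel hx
    by_cases hdeg : 0 < A.natDegree
    · -- the second case
      refine le_trans ?_ (rank_of_inj (S N) (pm (Real.pi ^ 2) z3 z3)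
        (case_two _ _ hx A B hc hdeg h) (N / 2 + 1) (N / 3) ?_ ?_)
      · exact_mod_cast (by omega : 2 * N / 3 + 1 ≤ N / 2 + 1 + N / 3)
      · intro b hb
        have h1 := mon_mem N 0 b (by omega)
        rw [pm_apply]
        simpa using h1
      · intro b hb
        have h1 := mon_mem N (b + 1) 0 (by omega)
        rw [pm_apply]
        simpa [pow_succ, mul_comm] using h1
    · -- the third case
      obtain ⟨c, hcA⟩ : ∃ c : ℚ, A = C c := ⟨A.coeff 0, eq_C_of_natDegree_eq_zero (by omega)⟩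
      have hc0 : c ≠ 0 := by
        rintro rfl
        rw [hcA, C_0] at hA
        exact hA rfl
      have hc1 : (c : ℝ) ≠ 0 := by exact_mod_cast hc0
      have hy : z3 = aeval (Real.pi ^ 2) (C c⁻¹ * B) := by
        rw [map_mul, ← h, hcA, aeval_C, aeval_C]
        have e1 : (algebraMap ℚ ℝ) c⁻¹ = (c : ℝ)⁻¹ := by simp
        have e2 : (algebraMap ℚ ℝ) c = (c : ℝ) := rfl
        rw [e1, e2]
        field_simp
      have hP : 2 ≤ (C c⁻¹ * B).natDegree := by
        by_contra hlt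
        rw [not_le] at hlt
        have h2 := eq_X_add_C_of_natDegree_le_one (p := C c⁻¹ * B) (by omega)
        rw [h2, map_add, map_mul, aeval_C, aeval_C, aeval_X] at hy
        refine not_linear ((C c⁻¹ * B).coeff 0) ((C c⁻¹ * B).coeff 1) ?_
        rw [add_comm]
        exact hy
      refine le_trans ?_ (rank_of_inj (S N) (pm z3 (Real.pi ^ 2) z3)
        (case_three _ _ hx _ hP hy) (N / 3 + 1) ((N + 1) / 3) ?_ ?_)
      · exact_mod_cast (by omega : 2 * N / 3 + 1 ≤ N / 3 + 1 + (N + 1) / 3)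
      · intro b hb
        have h1 := mon_mem N b 0 (by omega)
        rw [pm_apply]
        simpa using h1
      · intro b hb
        have h1 := mon_mem N b 1 (by omega)
        rw [pm_apply]
        simpa using h1

end Pool.Agent.Results.MP_2000e9_nt.SumDimension
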